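import Pool.Agent.H92.BN.Own2

/-!
# MP_61b8df_an: finite-energy blow-up above the first eigenvalue in every smooth bounded domain
-/

set_option autoImplicit false

open MeasureTheory Set Filter Topology
open scoped ContDiff

namespace Pool.Agent.Results.MP_61b8df_an.OneBubbleAboveLambdaOne

/-- Euclidean three-space. -/
abbrev E3 : Type := EuclideanSpace ℝ (Fin 3)

/-- `C^∞` functions with compact support contained in `Ω`. -/
def Test (Ω : Set E3) (φ : E3 → ℝ) : Prop :=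
  ContDiff ℝ ∞ φ ∧ HasCompactSupport φ ∧ tsupport φ ⊆ Ω

/-- The Laplacian (sum of the pure second partial derivatives). -/
noncomputable def laplacian (f : E3 → ℝ) (x : E3) : ℝ :=
  ∑ i : Fin 3, fderiv ℝ (fun y => fderiv ℝ f y (EuclideanSpace.single i 1)) x
    (EuclideanSpace.single i 1)

/-- The first Dirichlet eigenvalue: the infimum of the Rayleigh quotients. -/
noncomputable def lambdaOne (Ω : Set E3) : ℝ :=
  sInf {q : ℝ | ∃ φ : E3 → ℝ, Test Ω φ ∧ φ ≠ 0 ∧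
    q = (∫ x, ‖fderiv ℝ φ x‖ ^ 2) / (∫ x, φ x ^ 2)}

/-- The second Dirichlet eigenvalue: the infimum, over the planes of test functions, of the
maximum of the Rayleigh quotient. -/
noncomputable def lambdaTwo (Ω : Set E3) : ℝ :=
  sInf {q : ℝ | ∃ φ ψ : E3 → ℝ, Test Ω φ ∧ Test Ω ψ ∧
    (∀ a b : ℝ, a • φ + b • ψ = 0 → a = 0 ∧ b = 0) ∧
    ∀ a b : ℝ, (∫ x, ‖fderiv ℝ (a • φ + b • ψ) x‖ ^ 2) ≤ q * ∫ x, (a • φ + b • ψ) x ^ 2}

/-- The best constant in the Sobolev inequality `S ‖φ‖₆² ≤ ‖∇φ‖₂²` of three-space. -/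
noncomputable def sobolev : ℝ :=
  sInf {q : ℝ | ∃ φ : E3 → ℝ, Test univ φ ∧ φ ≠ 0 ∧
    q = (∫ x, ‖fderiv ℝ φ x‖ ^ 2) / (∫ x, φ x ^ 6) ^ ((1 : ℝ) / 3)}

/-- `H` is the regular part of the Dirichlet Green function `1 / (4 π |x - y|) - H x y` of
`-Δ - l` in `Ω`. -/
def IsRegularPart (Ω : Set E3) (l : ℝ) (H : E3 → E3 → ℝ) : Prop :=
  ∀ x ∈ Ω, ContinuousOn (H x) (closure Ω) ∧
    (∀ y ∈ frontier Ω, 1 / (4 * Real.pi * ‖x - y‖) - H x y = 0) ∧
    ∀ φ : E3 → ℝ, Test Ω φ →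
      (∫ y in Ω, (1 / (4 * Real.pi * ‖x - y‖) - H x y) * (-laplacian φ y - l * φ y)) = φ x

/-- Druet's number: the supremum of the `l` in `(0, λ₁)` whose Robin function `x ↦ H x x` has a
positive minimum. -/
noncomputable def druet (Ω : Set E3) : ℝ :=
  sSup {l : ℝ | 0 < l ∧ l < lambdaOne Ω ∧ ∃ H : E3 → E3 → ℝ, IsRegularPart Ω l H ∧
    ∃ c : ℝ, 0 < c ∧ ∀ x ∈ Ω, c ≤ H x x}

/-- The energy. -/
noncomputable def energy (Ω : Set E3) (l : ℝ) (u : E3 → ℝ) : ℝ :=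
  (1 / 2) * (∫ x in Ω, ‖fderiv ℝ u x‖ ^ 2) - l / 2 * (∫ x in Ω, u x ^ 2)
    - (1 / 6) * (∫ x in Ω, u x ^ 6)

/-- Solutions of `-Δu = l u + |u|⁴ u` in `Ω`, `u = 0` on the boundary, smooth up to the
boundary (and beyond). -/
def Solves (Ω : Set E3) (l : ℝ) (u : E3 → ℝ) : Prop :=
  ContDiff ℝ ∞ u ∧ (∀ x ∈ frontier Ω, u x = 0) ∧
    ∀ x ∈ Ω, -laplacian u x = l * u x + |u x| ^ 4 * u x

/-- Every smooth bounded domain has a number `lbar` strictly between its first two Dirichlet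
eigenvalues, in particular different from Druet's number, which is a concentration value with
finite energy; the solutions change sign, tend to `0` in `L²` and their energies tend to the
energy `S ^ (3 / 2) / 3` of one bubble. -/
theorem result (Ω : Set E3) (hopen : IsOpen Ω) (hbdd : Bornology.IsBounded Ω)
    (hconn : IsConnected Ω)
    (hsmooth : ∃ d : E3 → ℝ, ContDiff ℝ ∞ d ∧ Ω = {x | d x < 0} ∧
      ∀ x, d x = 0 → fderiv ℝ d x ≠ 0) :
    ∃ lbar : ℝ, lambdaOne Ω < lbar ∧ lbar < lambdaTwo Ω ∧ lbar ≠ druet Ω ∧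
      ∃ (lam : ℕ → ℝ) (u : ℕ → E3 → ℝ),
        (∀ n, 0 < lam n) ∧ Tendsto lam atTop (𝓝 lbar) ∧
        (∀ n, Solves Ω (lam n) (u n)) ∧
        (∀ n, (∃ x ∈ Ω, 0 < u n x) ∧ ∃ x ∈ Ω, u n x < 0) ∧
        (∀ M : ℝ, ∃ N : ℕ, ∀ n ≥ N, ∃ x ∈ Ω, M < |u n x|) ∧
        Tendsto (fun n => ∫ x in Ω, u n x ^ 2) atTop (𝓝 0) ∧
        Tendsto (fun n => energy Ω (lam n) (u n)) atTop
          (𝓝 (sobolev ^ ((3 : ℝ) / 2) / 3)) := by
  have hT : ∀ (W : Set E3) (φ : E3 → ℝ), Test W φ ↔ Pool.Agent.H92.BN.IsTest W φ :=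
    fun W φ => ⟨fun h => ⟨h.1, h.2.1, h.2.2⟩, fun h => ⟨h.smooth, h.cpt, h.supp⟩⟩
  obtain ⟨l1, l2, e1, e2, f1, f2, hE, lbar, h1, h2, lam, u, g1, g2, g3, g4, g5, g6, g7, g8,
    g9⟩ := Pool.Agent.H92.BN.final2 Ω hopen hbdd hconn hsmooth
  have hl1 : lambdaOne Ω ≤ l1 := by
    have := Pool.Agent.H92.BN.ray_le hE
    unfold lambdaOne
    simp only [hT]
    exact this
  have hl2 : l2 ≤ lambdaTwo Ω := by
    have := Pool.Agent.H92.BN.le_two hopen hconn.nonempty hE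
    unfold lambdaTwo
    simp only [hT]
    exact this
  have hS : sobolev = Pool.Agent.H92.BN.S0 := by
    have := Pool.Agent.H92.BN.sob_eq
    unfold sobolev
    simp only [hT]
    exact this
  have hl0 : 0 ≤ lambdaOne Ω := by
    refine Real.sInf_nonneg ?_
    rintro q ⟨φ, _, _, rfl⟩
    have a1 : 0 ≤ ∫ x, ‖fderiv ℝ φ x‖ ^ 2 := integral_nonneg fun x => by positivity
    have a2 : 0 ≤ ∫ x, φ x ^ 2 := integral_nonneg fun x => by positivity
    positivity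
  have hd : druet Ω ≤ lambdaOne Ω := by
    refine Real.sSup_le ?_ hl0
    rintro l ⟨_, h, _⟩
    exact h.le
  refine ⟨lbar, hl1.trans_lt h1, h2.trans_le hl2, ?_, lam, u, fun n => hE.pos.trans (g1 n), g2,
    fun n => ⟨g3 n, g4 n, g5 n⟩, g6, g7, g8, ?_⟩
  · exact ((hd.trans hl1).trans_lt h1).ne'
  · rw [hS]
    exact g9

end Pool.Agent.Results.MP_61b8df_an.OneBubbleAboveLambdaOne
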